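import Mathlib

set_option autoImplicit false

namespace Pool.Agent.Results.MP_332e42_an.Counter

/-- `K` is the attractor of the IFS `x ↦ R⁻¹ (x + b)`, `b ∈ B`, in dimension one. -/
def IsAttractor (R : ℤ) (B : Finset ℤ) (K : Set ℝ) : Prop :=
  K.Nonempty ∧ IsCompact K ∧ K = ⋃ b ∈ B, (fun x : ℝ => (R : ℝ)⁻¹ * (x + b)) '' K

def Simple (R : ℤ) (B : Finset ℤ) : Prop := ∀ b ∈ B, ∀ c ∈ B, R ∣ b - c → b = c

def Complete (R : ℤ) (B : Finset ℤ) : Prop := ∀ z : ℤ, ∃! b, b ∈ B ∧ R ∣ z - b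

lemma sign (B : Finset ℤ) (s : ℝ) (hs : ∀ b ∈ B, 0 ≤ s * b) (K : Set ℝ)
    (hK : IsAttractor 2 B K) : ∀ x ∈ K, 0 ≤ s * x := by
  obtain ⟨hne, hc, heq⟩ := hK
  obtain ⟨m, hm, hmin⟩ := hc.exists_isMinOn hne (f := fun x => s * x) (by fun_prop)
  have hm' := hm
  rw [heq] at hm'
  simp only [Set.mem_iUnion, Set.mem_image] at hm'
  obtain ⟨b, hb, y, hy, hym⟩ := hm'
  have h1 : s * m ≤ s * y := hmin hy
  have h2 := hs b hb
  have h3 : s * m = (s * y + s * b) / 2 := by rw [← hym]; push_cast; ring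
  intro x hx
  have h4 : s * m ≤ s * x := hmin hx
  linarith

theorem result : ∃ (R : ℤ) (B : Finset ℤ), 1 < |R| ∧ B.Nonempty ∧ Simple R B ∧
    (∃ K, IsAttractor R B K) ∧
    ∀ (B' : Finset ℤ) (K T : Set ℝ), B ⊆ B' → Complete R B' → IsAttractor R B K →
      IsAttractor R B' T → K ∩ interior T = ∅ := by
  refine ⟨2, {0}, by norm_num, by simp, ?_, ⟨{0}, by simp, isCompact_singleton, by simp⟩, ?_⟩
  · intro b hb c hc _
    simp at hb hc
    rw [hb, hc]
  · intro B' K T hB hC hK hT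
    have k1 := sign {0} 1 (by simp) K hK
    have k2 := sign {0} (-1) (by simp) K hK
    obtain ⟨m, hm, hmu⟩ := hC 1
    obtain ⟨o, -, hou⟩ := hC 0
    have h0 : (0 : ℤ) ∈ B' := hB (by simp)
    have hall : ∀ b ∈ B', b = 0 ∨ b = m := by
      intro b hb
      rcases Int.emod_two_eq_zero_or_one b with h | h
      · left
        rw [hou b ⟨hb, by omega⟩, hou 0 ⟨h0, by simp⟩]
      · right
        exact hmu b ⟨hb, by omega⟩
    have hm0 : m ≠ 0 := by
      have := hm.2
      omega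
    have t1 := sign B' m (fun b hb => by
      rcases hall b hb with h | h <;> rw [h]
      · simp
      · exact mul_self_nonneg _) T hT
    rw [Set.eq_empty_iff_forall_notMem]
    rintro x ⟨hx, hxT⟩
    have x0 : x = 0 := by linarith [k1 x hx, k2 x hx]
    rw [x0, mem_interior_iff_mem_nhds, Metric.mem_nhds_iff] at hxT
    obtain ⟨ε, hε, hsub⟩ := hxT
    have a1 := t1 (ε / 2) (hsub (by simp [abs_of_pos hε]; linarith))
    have a2 := t1 (-(ε / 2)) (hsub (by simp [abs_of_pos hε]; linarith))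
    have : (m : ℝ) * (ε / 2) = 0 := by linarith
    rcases mul_eq_zero.mp this with h | h
    · exact hm0 (by exact_mod_cast h)
    · linarith

end Pool.Agent.Results.MP_332e42_an.Counter
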